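import Pool.Agent.Helper62.DSH.StA

/-!
# Project DSH, module LBZ: product rules for the covariant derivative of component tensors
-/

set_option autoImplicit false

open Set Filter Topology MeasureTheory
open Helper62.LH Helper62.DSH
open scoped ContDiff ENNReal

noncomputable section

namespace Pool.Agent.Helper29.DSH

theorem rho_smul {n j : ℕ} (A : Fin n → Fin n → ℝ) (c : ℝ) (t : Tn n j) :
    rho A (c • t) = c • rho A t := by
  funext I
  simp only [rho, Pi.smul_apply, smul_eq_mul, Finset.mul_sum]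
  refine Finset.sum_congr rfl fun k _ => Finset.sum_congr rfl fun l _ => ?_
  ring

theorem ct_smul {n j : ℕ} (a : Fin n) (c : ℝ) (t : Tn n (j + 1)) :
    ct a (c • t) = c • ct a t := rfl

theorem ct_add {n j : ℕ} (a : Fin n) (s t : Tn n (j + 1)) :
    ct a (s + t) = ct a s + ct a t := rfl

theorem ct_sub {n j : ℕ} (a : Fin n) (s t : Tn n (j + 1)) :
    ct a (s - t) = ct a s - ct a t := rfl

theorem wd_smul_add {n j : ℕ} (c : ℝ) (p q : Fin n → Tn n j) :
    wd (fun a => c • p a + q a) = c • wd p + wd q := by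
  funext J
  simp only [wd, Pi.add_apply, Pi.smul_apply, smul_eq_mul, Finset.mul_sum]
  rw [← Finset.sum_add_distrib]
  refine Finset.sum_congr rfl fun k _ => ?_
  ring

theorem ipt_sub_left {n j : ℕ} (s s' t : Tn n j) :
    ipt (s - s') t = ipt s t - ipt s' t := by
  simp only [ipt, Pi.sub_apply, sub_mul, Finset.sum_sub_distrib, sub_div]

theorem ipt_sub_right {n j : ℕ} (s t t' : Tn n j) :
    ipt s (t - t') = ipt s t - ipt s t' := by
  simp only [ipt, Pi.sub_apply, mul_sub, Finset.sum_sub_distrib, sub_div]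

theorem fderiv_ipt {n j : ℕ} {u v : E n → Tn n j} {x : E n} (hu : DifferentiableAt ℝ u x)
    (hv : DifferentiableAt ℝ v x) (w : E n) :
    fderiv ℝ (fun y => ipt (u y) (v y)) x w =
      ipt (fderiv ℝ u x w) (v x) + ipt (u x) (fderiv ℝ v x w) := by
  have hu' := hu.hasFDerivAt
  have hv' := hv.hasFDerivAt
  rw [hasFDerivAt_pi'] at hu' hv'
  have h1 : HasFDerivAt (fun y => (∑ I, u y I * v y I) * ((j.factorial : ℝ))⁻¹)
      (((j.factorial : ℝ))⁻¹ • ∑ I, (u x I • (ContinuousLinearMap.proj I).comp (fderiv ℝ v x) +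
        v x I • (ContinuousLinearMap.proj I).comp (fderiv ℝ u x))) x := by
    refine HasFDerivAt.mul_const ?_ _
    refine HasFDerivAt.fun_sum fun I _ => ?_
    exact (hu' I).mul (hv' I)
  have h2 : (fun y => ipt (u y) (v y)) =
      fun y => (∑ I, u y I * v y I) * ((j.factorial : ℝ))⁻¹ := by
    funext y
    simp only [ipt, div_eq_mul_inv]
  rw [h2, h1.fderiv]
  simp only [ContinuousLinearMap.smul_apply, ContinuousLinearMap.sum_apply,
    ContinuousLinearMap.add_apply, ContinuousLinearMap.comp_apply,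
    ContinuousLinearMap.proj_apply, smul_eq_mul, ipt, div_eq_mul_inv]
  rw [← add_mul, ← Finset.sum_add_distrib, mul_comm]
  congr 1
  refine Finset.sum_congr rfl fun I _ => ?_
  ring

theorem fderiv_ct {n j : ℕ} {u : E n → Tn n (j + 1)} {x : E n} (hu : DifferentiableAt ℝ u x)
    (b : Fin n) (w : E n) :
    fderiv ℝ (fun y => ct b (u y)) x w = ct b (fderiv ℝ u x w) := by
  have hu' := hu.hasFDerivAt
  rw [hasFDerivAt_pi'] at hu'
  have h1 : HasFDerivAt (fun y => ct b (u y))
      (ContinuousLinearMap.pi fun K : Fin j → Fin n =>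
        (ContinuousLinearMap.proj (R := ℝ) (φ := fun _ : Fin (j + 1) → Fin n => ℝ)
          (Fin.cons b K : Fin (j + 1) → Fin n)).comp (fderiv ℝ u x)) x := by
    rw [hasFDerivAt_pi]
    intro K
    exact hu' (Fin.cons b K)
  rw [h1.fderiv]
  rfl

theorem hLbz (hRho : TRho) : TLbz := by
  intro n j g Γ F G hF
  have key : ∀ {m : ℕ} (χ : E n → ℝ) (u : E n → Tn n m), ContDiff ℝ ∞ χ → ContDiff ℝ ∞ u →
      ∀ x a, cv F G (fun y => χ y • u y) x a =
        χ x • cv F G u x a + fderiv ℝ χ x (F a x) • u x := by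
    intro m χ u hχ hu x a
    have hd1 : DifferentiableAt ℝ χ x := (hχ.differentiable (by simp)) x
    have hd2 : DifferentiableAt ℝ u x := (hu.differentiable (by simp)) x
    have h1 : fderiv ℝ (fun y => χ y • u y) x (F a x) =
        χ x • fderiv ℝ u x (F a x) + fderiv ℝ χ x (F a x) • u x := by
      rw [(hd1.hasFDerivAt.fun_smul hd2.hasFDerivAt).fderiv]
      rfl
    simp only [cv]
    rw [h1, rho_smul, smul_sub]
    abel
  refine ⟨?_, ?_, ?_, ?_⟩
  · intro u v hu hv x a
    have hd1 : DifferentiableAt ℝ u x := (hu.differentiable (by simp)) x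
    have hd2 : DifferentiableAt ℝ v x := (hv.differentiable (by simp)) x
    rw [fderiv_ipt hd1 hd2]
    have h2 := (hRho n j (G x a) (G x a)).2.1 (fun c l => hF.anti x a c l) (u x) (v x)
    simp only [cv]
    rw [ipt_sub_left, ipt_sub_right, h2]
    ring
  · intro χ u hχ hu x
    refine ⟨fun a => key χ u hχ hu x a, ?_⟩
    have h1 : cv F G (fun y => χ y • u y) x =
        fun a => χ x • cv F G u x a + fderiv ℝ χ x (F a x) • u x := by
      funext a
      exact key χ u hχ hu x a
    show wd (cv F G (fun y => χ y • u y) x) = χ x • wd (cv F G u x) + _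
    rw [h1, wd_smul_add]
  · intro f χ u hχ hu x
    simp only [dlF]
    rw [Finset.smul_sum, ← Finset.sum_add_distrib]
    refine Finset.sum_congr rfl fun a _ => ?_
    rw [key χ u hχ hu x a, ct_add, ct_smul, ct_smul, ct_smul, smul_sub, smul_comm (χ x)]
    abel
  · intro u hu x a b
    have hd : DifferentiableAt ℝ u x := (hu.differentiable (by simp)) x
    simp only [cv]
    rw [fderiv_ct hd, ct_sub, (hRho n j (G x a) (G x a)).2.2.2.1 (u x) b]
    abel

end Pool.Agent.Helper29.DSH
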